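import Mathlib
import Pool.Agent.FewGroups.Rank

set_option autoImplicit false

/-!
# From boxes to all tuples, for an arbitrary property

`Φ X g V` is a property of a tuple `g` of rationals and a subspace `V` of `ℝ`. If every box of size
`X ^ (-δ)` has a group of rank at most `R` generated by rationals of height at most `X` such that
the property holds for all tuples in the box, then at most `X ^ ε` groups of rank at most `r`
are needed for all tuples of height at most `X`.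
-/

namespace Pool.Agent.H21F

open Filter Pool.Agent.FewGroups

/-- All boxes together, with groups of rank at most `R`. -/
theorem grid (r R : ℕ) (ε : ℝ) (hε : 0 < ε) (δ : ℝ) (hδ : δ = ε / (8 * (r + 1)))
    (Φ : ℝ → (Fin r → ℚ) → Submodule ℚ ℝ → Prop) (X₁ : ℝ)
    (hbox : ∀ X : ℝ, X₁ ≤ X → ∀ P : Fin r → ℝ, ∃ t : Fin R → ℚ,
      (∀ s, 0 < t s ∧ ((t s).num : ℝ) ≤ X ∧ ((t s).den : ℝ) ≤ X) ∧
      ∀ (g : Fin r → ℚ), (∀ k, 0 < g k) → (∀ k, ((g k).num : ℝ) ≤ X) →
        (∀ k, ((g k).den : ℝ) ≤ X) → (∀ k, |Real.log (g k) - P k| ≤ X ^ (-δ)) →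
        Φ X g (logSpan t)) :
    ∃ X₀ : ℝ, ∀ X : ℝ, X₀ ≤ X →
      ∃ (S : Finset ℕ) (T : Finset (Fin R → ℚ)),
        (S.card : ℝ) ≤ X ^ ε ∧ (T.card : ℝ) ≤ X ^ ε ∧
        (∀ t ∈ T, ∀ s, 0 < t s ∧ ((t s).num : ℝ) ≤ X ∧ ((t s).den : ℝ) ≤ X ∧
          ∀ p : ℕ, p.Prime → padicValRat p (t s) ≠ 0 → p ∈ S) ∧
        ∀ g : Fin r → ℚ, (∀ k, 0 < g k) → (∀ k, ((g k).num : ℝ) ≤ X) →
          (∀ k, ((g k).den : ℝ) ≤ X) → ∃ t ∈ T, Φ X g (logSpan t) := by
  classical
  have hr0 : (0:ℝ) ≤ r := Nat.cast_nonneg r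
  have hδpos : 0 < δ := by rw [hδ]; positivity
  have hlog2 : 0 < Real.log 2 := Real.log_pos (by norm_num)
  have hev1 : ∀ᶠ X : ℝ in atTop, 2 * (X ^ δ * Real.log X + 2) + 1 ≤ X ^ (2 * δ) := by
    have h1 := (isLittleO_log_rpow_atTop hδpos).bound (by norm_num : (0:ℝ) < 1 / 4)
    have h2 := (tendsto_rpow_atTop (by positivity : 0 < 2 * δ)).eventually_ge_atTop 10
    filter_upwards [h1, h2, eventually_ge_atTop (1:ℝ)] with X h1 h2 h3
    have hXpos : 0 < X := by linarith
    rw [Real.norm_eq_abs, Real.norm_eq_abs, abs_of_nonneg (Real.log_nonneg h3),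
      abs_of_nonneg (Real.rpow_nonneg hXpos.le _)] at h1
    have h4 : X ^ (2 * δ) = X ^ δ * X ^ δ := by
      rw [← Real.rpow_add hXpos]; congr 1; ring
    have h5 : 0 ≤ X ^ δ := Real.rpow_nonneg hXpos.le _
    have h6 : X ^ δ * Real.log X ≤ X ^ δ * (1 / 4 * X ^ δ) := mul_le_mul_of_nonneg_left h1 h5
    rw [h4] at h2 ⊢
    nlinarith
  have hev2 : ∀ᶠ X : ℝ in atTop, (R : ℝ) * (2 * (Real.log X / Real.log 2)) ≤ X ^ (ε / 2) := by
    have hc : 0 < Real.log 2 / (2 * R + 1) := by positivity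
    have h1 := (isLittleO_log_rpow_atTop (by positivity : 0 < ε / 2)).bound hc
    filter_upwards [h1, eventually_ge_atTop (1:ℝ)] with X h1 h3
    have hXpos : 0 < X := by linarith
    rw [Real.norm_eq_abs, Real.norm_eq_abs, abs_of_nonneg (Real.log_nonneg h3),
      abs_of_nonneg (Real.rpow_nonneg hXpos.le _)] at h1
    have h5 : 0 ≤ X ^ (ε / 2) := Real.rpow_nonneg hXpos.le _
    have h6 : Real.log X / Real.log 2 ≤ X ^ (ε / 2) / (2 * R + 1) := by
      rw [div_le_iff₀ hlog2]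
      refine h1.trans (le_of_eq ?_)
      field_simp
    calc (R : ℝ) * (2 * (Real.log X / Real.log 2)) ≤
        (R : ℝ) * (2 * (X ^ (ε / 2) / (2 * R + 1))) := by gcongr
      _ = (2 * R / (2 * R + 1)) * X ^ (ε / 2) := by ring
      _ ≤ 1 * X ^ (ε / 2) := by
          apply mul_le_mul_of_nonneg_right _ h5
          rw [div_le_one (by positivity)]
          linarith
      _ = _ := one_mul _
  obtain ⟨X₂, hX₂⟩ := eventually_atTop.mp (hev1.and hev2)
  refine ⟨max X₁ (max X₂ 1), fun X hX => ?_⟩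
  have hXX₁ : X₁ ≤ X := (le_max_left _ _).trans hX
  have hXX₂ : X₂ ≤ X := ((le_max_left _ _).trans (le_max_right _ _)).trans hX
  have hX1 : 1 ≤ X := ((le_max_right _ _).trans (le_max_right _ _)).trans hX
  have hXpos : 0 < X := by linarith
  obtain ⟨hcond1, hcond2⟩ := hX₂ X hXX₂
  choose tt htt1 htt2 using hbox X hXX₁
  have hlogX : 0 ≤ Real.log X := Real.log_nonneg hX1
  have hXδ : 0 < X ^ δ := Real.rpow_pos_of_pos hXpos _
  set h : ℝ := X ^ (-δ) with hh
  have hhpos : 0 < h := Real.rpow_pos_of_pos hXpos _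
  have hhδ : X ^ δ * h = 1 := by
    rw [hh, ← Real.rpow_add hXpos]; simp
  set L : ℕ := ⌈X ^ δ * Real.log X⌉₊ + 1 with hL
  have hL1 : X ^ δ * Real.log X + 1 ≤ L := by
    rw [hL]; push_cast
    linarith [Nat.le_ceil (X ^ δ * Real.log X)]
  have hL2 : (L : ℝ) ≤ X ^ δ * Real.log X + 2 := by
    rw [hL]; push_cast
    linarith [(Nat.ceil_lt_add_one (by positivity : 0 ≤ X ^ δ * Real.log X)).le]
  let J : Finset (Fin r → ℤ) := Fintype.piFinset (fun _ => Finset.Icc (-(L:ℤ)) L)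
  let T : Finset (Fin R → ℚ) := J.image (fun j => tt (fun k => (j k : ℝ) * h))
  let S : Finset ℕ := T.biUnion fun t => Finset.univ.biUnion fun s =>
    (t s).num.natAbs.primeFactors ∪ (t s).den.primeFactors
  have hTprop : ∀ t ∈ T, ∀ s, 0 < t s ∧ ((t s).num : ℝ) ≤ X ∧ ((t s).den : ℝ) ≤ X := by
    intro t ht
    obtain ⟨j, -, rfl⟩ := Finset.mem_image.mp ht
    exact htt1 _
  have hTcard : (T.card : ℝ) ≤ X ^ (ε / 2) := by
    have h1 : T.card ≤ (2 * L + 1) ^ r := by
      refine Finset.card_image_le.trans ?_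
      rw [Fintype.card_piFinset_const, Int.card_Icc]
      apply le_of_eq
      congr 1
      omega
    have h2 : (((2 * L + 1) ^ r : ℕ) : ℝ) ≤ (X ^ (2 * δ)) ^ r := by
      push_cast
      apply pow_le_pow_left₀ (by positivity)
      linarith
    have h3 : (X ^ (2 * δ)) ^ r ≤ X ^ (ε / 2) := by
      rw [← Real.rpow_natCast, ← Real.rpow_mul hXpos.le]
      apply Real.rpow_le_rpow_of_exponent_le hX1
      rw [hδ]
      have h4 : 2 * (ε / (8 * ((r:ℝ) + 1))) * r = ε / 2 * (r / (2 * (r + 1))) := by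
        field_simp
        ring
      rw [h4]
      have h5 : (r:ℝ) / (2 * (r + 1)) ≤ 1 := by
        rw [div_le_one (by positivity)]
        linarith
      calc ε / 2 * ((r:ℝ) / (2 * (r + 1))) ≤ ε / 2 * 1 := by gcongr
        _ = _ := mul_one _
    calc (T.card : ℝ) ≤ (((2 * L + 1) ^ r : ℕ) : ℝ) := by exact_mod_cast h1
      _ ≤ _ := h2.trans h3
  have hε2 : X ^ (ε / 2) ≤ X ^ ε := Real.rpow_le_rpow_of_exponent_le hX1 (by linarith)
  have hTS : ∀ t ∈ T, ∀ s, 0 < t s ∧ ((t s).num : ℝ) ≤ X ∧ ((t s).den : ℝ) ≤ X ∧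
      ∀ p : ℕ, p.Prime → padicValRat p (t s) ≠ 0 → p ∈ S := by
    intro t ht s
    obtain ⟨h5, h6, h7⟩ := hTprop t ht s
    refine ⟨h5, h6, h7, fun p hp hval => ?_⟩
    exact Finset.mem_biUnion.mpr ⟨t, ht, Finset.mem_biUnion.mpr
      ⟨s, Finset.mem_univ _, mem_primeFactors_of_padic p hp _ h5 hval⟩⟩
  refine ⟨S, T, ?_, hTcard.trans hε2, hTS, ?_⟩
  · -- the number of primes
    have h1 : S.card ≤ ∑ t ∈ T, ∑ s : Fin R,
        ((t s).num.natAbs.primeFactors ∪ (t s).den.primeFactors).card :=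
      Finset.card_biUnion_le.trans (Finset.sum_le_sum fun t _ => Finset.card_biUnion_le)
    have h2 : (S.card : ℝ) ≤ ∑ t ∈ T, ∑ s : Fin R,
        (((t s).num.natAbs.primeFactors ∪ (t s).den.primeFactors).card : ℝ) := by
      exact_mod_cast h1
    have h3 : ∀ t ∈ T, ∑ s : Fin R,
        (((t s).num.natAbs.primeFactors ∪ (t s).den.primeFactors).card : ℝ) ≤
        (R : ℝ) * (2 * (Real.log X / Real.log 2)) := by
      intro t ht
      have h4 : ∀ s ∈ (Finset.univ : Finset (Fin R)),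
          (((t s).num.natAbs.primeFactors ∪ (t s).den.primeFactors).card : ℝ) ≤
          2 * (Real.log X / Real.log 2) := by
        intro s _
        obtain ⟨h5, h6, h7⟩ := hTprop t ht s
        have hnum : (t s).num.natAbs ≠ 0 := by
          rw [Int.natAbs_ne_zero]
          exact (Rat.num_pos.mpr h5).ne'
        have h8 : (((t s).num.natAbs : ℕ) : ℝ) ≤ X := by
          rw [Nat.cast_natAbs, abs_of_pos (Rat.num_pos.mpr h5)]
          exact h6
        have h9 := card_primeFactors_le _ hnum X h8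
        have h10 := card_primeFactors_le _ (t s).den_ne_zero X h7
        have h11 : (((t s).num.natAbs.primeFactors ∪ (t s).den.primeFactors).card : ℝ) ≤
            ((t s).num.natAbs.primeFactors.card : ℝ) + ((t s).den.primeFactors.card : ℝ) := by
          exact_mod_cast Finset.card_union_le _ _
        linarith
      refine (Finset.sum_le_sum h4).trans ?_
      simp
    calc (S.card : ℝ) ≤ _ := h2
      _ ≤ ∑ t ∈ T, (R : ℝ) * (2 * (Real.log X / Real.log 2)) := Finset.sum_le_sum h3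
      _ = (T.card : ℝ) * ((R : ℝ) * (2 * (Real.log X / Real.log 2))) := by
          rw [Finset.sum_const, nsmul_eq_mul]
      _ ≤ X ^ (ε / 2) * X ^ (ε / 2) := by
          apply mul_le_mul hTcard hcond2 (by positivity) (by positivity)
      _ = X ^ ε := by
          rw [← Real.rpow_add hXpos]; congr 1; ring
  · intro g hg hg1 hg2
    let j : Fin r → ℤ := fun k => round (Real.log (g k) * X ^ δ)
    have hround : ∀ k, |Real.log (g k) * X ^ δ - (j k : ℝ)| ≤ 1 / 2 := fun k => abs_sub_round _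
    have hlogg : ∀ k, |Real.log (g k)| ≤ Real.log X := fun k =>
      abs_log_le (hg k) (hg1 k) (hg2 k)
    have hjJ : j ∈ J := by
      rw [Fintype.mem_piFinset]
      intro k
      have h1 := hround k
      have h2 : |Real.log (g k) * X ^ δ| ≤ X ^ δ * Real.log X := by
        rw [abs_mul, abs_of_pos hXδ, mul_comm]
        exact mul_le_mul_of_nonneg_left (hlogg k) hXδ.le
      rw [abs_le] at h1 h2
      rw [Finset.mem_Icc]
      constructor
      · have : (-(L:ℝ)) ≤ (j k : ℝ) := by linarith [h1.1, h1.2, h2.1, h2.2]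
        exact_mod_cast this
      · have : (j k : ℝ) ≤ (L:ℝ) := by linarith [h1.1, h1.2, h2.1, h2.2]
        exact_mod_cast this
    have htT : tt (fun k => (j k : ℝ) * h) ∈ T := Finset.mem_image.mpr ⟨j, hjJ, rfl⟩
    have hclose : ∀ k, |Real.log (g k) - (j k : ℝ) * h| ≤ h := by
      intro k
      have h1 := hround k
      have h2 : Real.log (g k) - (j k : ℝ) * h = (Real.log (g k) * X ^ δ - (j k : ℝ)) * h := by
        linear_combination (-Real.log (g k)) * hhδ
      rw [h2, abs_mul, abs_of_pos hhpos]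
      nlinarith
    exact ⟨tt (fun k => (j k : ℝ) * h), htT,
      htt2 (fun k => (j k : ℝ) * h) g hg hg1 hg2 hclose⟩

/-- All boxes together, with groups of rank at most `r`. -/
theorem gen (r R : ℕ) (ε : ℝ) (hε : 0 < ε) (δ : ℝ) (hδ : δ = ε / 4 / (8 * (r + 1)))
    (Φ : ℝ → (Fin r → ℚ) → Submodule ℚ ℝ → Prop) (X₀' : ℝ)
    (hbox : ∀ X : ℝ, X₀' ≤ X → ∀ P : Fin r → ℝ, ∃ t : Fin R → ℚ,
      (∀ s, 0 < t s ∧ ((t s).num : ℝ) ≤ X ∧ ((t s).den : ℝ) ≤ X) ∧
      ∀ (g : Fin r → ℚ), (∀ k, 0 < g k) → (∀ k, ((g k).num : ℝ) ≤ X) →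
        (∀ k, ((g k).den : ℝ) ≤ X) → (∀ k, |Real.log (g k) - P k| ≤ X ^ (-δ)) →
        Φ X g (logSpan t)) :
    ∃ X₀ : ℝ, ∀ X : ℝ, X₀ ≤ X →
      ∃ (S : Finset ℕ) (T : Finset (Fin r → ℚ)),
        (S.card : ℝ) ≤ X ^ ε ∧ (T.card : ℝ) ≤ X ^ ε ∧
        (∀ u ∈ T, ∀ s, 0 < u s ∧ ∀ p : ℕ, p.Prime → padicValRat p (u s) ≠ 0 → p ∈ S) ∧
        ∀ g : Fin r → ℚ, (∀ k, 0 < g k) → (∀ k, ((g k).num : ℝ) ≤ X) →
          (∀ k, ((g k).den : ℝ) ≤ X) →
          ∃ t : Fin R → ℚ, Φ X g (logSpan t) ∧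
            (∀ q : ℚ, 0 < q → Real.log q ∈ logSpan t → ∀ p : ℕ, p.Prime →
              padicValRat p q ≠ 0 → p ∈ S) ∧
            ∃ u ∈ T, Submodule.span ℚ (Set.range fun s => Real.log (u s)) ≤
                Submodule.span ℚ (Set.range fun k => Real.log (g k)) ∧
              ∀ e : Fin r → ℤ, ∑ k, (e k : ℝ) * Real.log (g k) ∈ logSpan t →
                ∑ k, (e k : ℝ) * Real.log (g k) ∈
                  Submodule.span ℚ (Set.range fun s => Real.log (u s)) := by
  classical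
  have hlog2 : 0 < Real.log 2 := Real.log_pos (by norm_num)
  obtain ⟨X₁, hfew⟩ := grid r R (ε / 4) (by positivity) δ hδ Φ X₀' hbox
  obtain ⟨X₂, hX₂⟩ := eventually_atTop.mp (eventually_small R r (ε / 4) (by positivity))
  refine ⟨max X₁ (max X₂ 2), fun X hX => ?_⟩
  have hXX₁ : X₁ ≤ X := (le_max_left _ _).trans hX
  have hXX₂ : X₂ ≤ X := ((le_max_left _ _).trans (le_max_right _ _)).trans hX
  have hX2 : 2 ≤ X := ((le_max_right _ _).trans (le_max_right _ _)).trans hX
  have hX1 : 1 ≤ X := by linarith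
  have hXpos : 0 < X := by linarith
  have hcond := hX₂ X hXX₂
  obtain ⟨S, T₀, hS, hT₀, hTS, hmain⟩ := hfew X hXX₁
  set Λ : ℝ := Real.log X / Real.log 2 with hΛ
  have hΛ1 : 1 ≤ Λ := by
    rw [hΛ, le_div_iff₀ hlog2, one_mul]
    exact Real.log_le_log (by norm_num) hX2
  set Z : ℕ := ⌈(r : ℝ) * ((((R + r + 1).factorial : ℕ) : ℝ) * Λ ^ (R + r) * Λ)⌉₊ with hZ
  -- the finite sets of rationals
  have hQ : ∀ t : Fin R → ℚ, ∃ Q : Finset ℚ, t ∈ T₀ → (Q.card ≤ (2 * Z + 1) ^ R ∧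
      (∀ x ∈ Q, 0 < x ∧ Real.log x ∈ logSpan t) ∧
      ∀ x : ℚ, 0 < x → Real.log x ∈ logSpan t →
        (∀ p : ℕ, p.Prime → |((padicValRat p x : ℤ) : ℝ)| ≤ Z) → x ∈ Q) := by
    intro t
    by_cases ht : t ∈ T₀
    · obtain ⟨Q, h1, h2, h3⟩ := card_bounded t (fun s => (hTS t ht s).1) Z
      exact ⟨Q, fun _ => ⟨h1, h2, h3⟩⟩
    · exact ⟨∅, fun h => absurd h ht⟩
  choose Q hQ using hQ
  let T : Finset (Fin r → ℚ) := T₀.biUnion fun t => Fintype.piFinset (fun _ : Fin r => Q t)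
  have hε1 : X ^ (ε / 4) ≤ X ^ ε := Real.rpow_le_rpow_of_exponent_le hX1 (by linarith)
  refine ⟨S, T, hS.trans hε1, ?_, ?_, ?_⟩
  · have h1 : T.card ≤ ∑ t ∈ T₀, (Fintype.piFinset (fun _ : Fin r => Q t)).card :=
      Finset.card_biUnion_le
    have h2 : ∀ t ∈ T₀, (Fintype.piFinset (fun _ : Fin r => Q t)).card ≤
        ((2 * Z + 1) ^ R) ^ r := by
      intro t ht
      rw [Fintype.card_piFinset]
      simp only [Finset.prod_const, Finset.card_univ, Fintype.card_fin]
      exact Nat.pow_le_pow_left (hQ t ht).1 r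
    have h3 : T.card ≤ T₀.card * ((2 * Z + 1) ^ R) ^ r := by
      refine h1.trans ((Finset.sum_le_sum h2).trans ?_)
      rw [Finset.sum_const, smul_eq_mul]
    calc (T.card : ℝ) ≤ ((T₀.card * ((2 * Z + 1) ^ R) ^ r : ℕ) : ℝ) := by exact_mod_cast h3
      _ = (T₀.card : ℝ) * ((2 * (Z : ℝ) + 1) ^ R) ^ r := by push_cast; ring
      _ ≤ X ^ (ε / 4) * X ^ (ε / 4) :=
          mul_le_mul hT₀ hcond (by positivity) (Real.rpow_nonneg hXpos.le _)
      _ = X ^ (ε / 2) := by
          rw [← Real.rpow_add hXpos]; congr 1; ring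
      _ ≤ X ^ ε := Real.rpow_le_rpow_of_exponent_le hX1 (by linarith)
  · intro u hu s
    obtain ⟨t, ht, hut⟩ := Finset.mem_biUnion.mp hu
    rw [Fintype.mem_piFinset] at hut
    obtain ⟨h1, h2⟩ := (hQ t ht).2.1 (u s) (hut s)
    refine ⟨h1, fun p hp hval => ?_⟩
    by_contra hpS
    apply hval
    apply padic_of_mem t (fun s => (hTS t ht s).1) _ h1 h2 p hp
    intro s'
    by_contra hne
    exact hpS ((hTS t ht s').2.2.2 p hp hne)
  · intro g hg hg1 hg2
    obtain ⟨t, ht, htg⟩ := hmain g hg hg1 hg2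
    obtain ⟨n, hn1, hn2, hn3⟩ := small_generators t (fun s => (hTS t ht s).1) g hg Λ hΛ1
      (fun s p hp => padic_bound p hp _ (hTS t ht s).1 X (hTS t ht s).2.1 (hTS t ht s).2.2.1)
      (fun k p hp => padic_bound p hp _ (hg k) X (hg1 k) (hg2 k))
    let u : Fin r → ℚ := fun i => ∏ k, g k ^ n i k
    have hu0 : ∀ i, 0 < u i := fun i => Finset.prod_pos (fun k _ => zpow_pos (hg k) _)
    have hulog : ∀ i, Real.log (u i) = ∑ k, (n i k : ℝ) * Real.log (g k) := fun i =>
      log_comb g hg (n i)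
    have hspan : Submodule.span ℚ (Set.range fun i => ∑ k, (n i k : ℝ) * Real.log (g k)) =
        Submodule.span ℚ (Set.range fun s => Real.log (u s)) := by
      congr 2
      funext i
      exact (hulog i).symm
    rw [hspan] at hn3
    have huQ : u ∈ Fintype.piFinset (fun _ : Fin r => Q t) := by
      rw [Fintype.mem_piFinset]
      intro i
      apply (hQ t ht).2.2 (u i) (hu0 i)
      · rw [hulog]
        exact hn2 i
      · intro p hp
        have : Fact p.Prime := ⟨hp⟩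
        have h1 : padicValRat p (u i) = ∑ k, n i k * padicValRat p (g k) :=
          padic_finset Finset.univ g hg (n i) p
        rw [h1]
        push_cast
        have h2 := abs_comb_le (n i) (fun k => ((padicValRat p (g k) : ℤ) : ℝ))
          ((((R + r + 1).factorial : ℕ) : ℝ) * Λ ^ (R + r)) Λ (by positivity) (hn1 i)
          (fun k => padic_bound p hp _ (hg k) X (hg1 k) (hg2 k))
        exact h2.trans (Nat.le_ceil _)
    refine ⟨t, htg, ?_, u, Finset.mem_biUnion.mpr ⟨t, ht, huQ⟩, ?_, hn3⟩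
    · intro q hq0 hqt p hp hval
      by_contra hpS
      apply hval
      apply padic_of_mem t (fun s => (hTS t ht s).1) q hq0 hqt p hp
      intro s
      by_contra hne
      exact hpS ((hTS t ht s).2.2.2 p hp hne)
    · rw [Submodule.span_le]
      rintro x ⟨i, rfl⟩
      simp only
      rw [hulog]
      apply Submodule.sum_mem
      intro k _
      have h3 : (n i k : ℝ) * Real.log (g k) = ((n i k : ℤ) : ℚ) • Real.log (g k) := by
        rw [Rat.smul_def]; push_cast; ring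
      rw [h3]
      exact Submodule.smul_mem _ _ (Submodule.subset_span ⟨k, rfl⟩)

end Pool.Agent.H21F
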