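import Mathlib
import Pool.Agent.FewGroups.Core

set_option autoImplicit false

/-!
# The transfer principle for integer polynomials
-/

namespace Pool.Agent.H21F

open Pool.Agent.FewGroups

/-- The coefficients of a polynomial of degree at most `d`, as a function on exponent vectors. -/
noncomputable def coef {r : ℕ} (d : ℕ) (F : MvPolynomial (Fin r) ℤ) :
    (Fin r → Fin (d + 1)) → ℤ := fun γ =>
  MvPolynomial.coeff (Finsupp.equivFunOnFinite.symm fun k => (γ k : ℕ)) F

lemma coef_deg {r : ℕ} (d : ℕ) (F : MvPolynomial (Fin r) ℤ) (hF : F.totalDegree ≤ d)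
    (α : Fin r → Fin (d + 1)) (hα : d < ∑ k, (α k : ℕ)) : coef d F α = 0 := by
  apply MvPolynomial.coeff_eq_zero_of_totalDegree_lt
  refine lt_of_le_of_lt hF (lt_of_lt_of_le hα (le_of_eq ?_))
  rw [← Finset.sum_subset (Finset.subset_univ
    (Finsupp.equivFunOnFinite.symm fun k => (α k : ℕ)).support)]
  · rfl
  · intro k _ hk
    simpa using hk

lemma ev_coef {r : ℕ} (d : ℕ) (F : MvPolynomial (Fin r) ℤ) (hF : F.totalDegree ≤ d)
    (x : Fin r → ℝ) : ev (coef d F) x = MvPolynomial.aeval x F := by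
  classical
  let φ : (Fin r → Fin (d + 1)) → (Fin r →₀ ℕ) := fun γ =>
    Finsupp.equivFunOnFinite.symm fun k => (γ k : ℕ)
  have hφ : Function.Injective φ := by
    intro γ γ' h
    funext k
    have h1 := DFunLike.congr_fun h k
    simp only [φ, Finsupp.equivFunOnFinite_symm_apply_apply] at h1
    exact Fin.ext h1
  have hsub : F.support ⊆ Finset.univ.image φ := by
    intro α hα
    rw [Finset.mem_image]
    have hle : ∀ k, α k < d + 1 := by
      intro k
      have h1 := MvPolynomial.le_totalDegree hα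
      have h2 : α k ≤ α.sum fun _ e => e := by
        by_cases hk : k ∈ α.support
        · exact Finset.single_le_sum (f := fun k => α k) (fun _ _ => Nat.zero_le _) hk
        · simp only [Finsupp.mem_support_iff, not_not] at hk
          rw [hk]
          exact Nat.zero_le _
      omega
    refine ⟨fun k => ⟨α k, hle k⟩, Finset.mem_univ _, ?_⟩
    ext k
    simp [φ]
  rw [MvPolynomial.aeval_def, MvPolynomial.eval₂_eq', ev]
  rw [Finset.sum_subset hsub]
  · rw [Finset.sum_image (fun _ _ _ _ h => hφ h)]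
    apply Finset.sum_congr rfl
    intro γ _
    simp [coef, φ]
  · intro α _ hα
    rw [MvPolynomial.notMem_support_iff.mp hα]
    simp

/-- A polynomial which vanishes at all small multiples vanishes. -/
lemma exact_ext {r : ℕ} (F : MvPolynomial (Fin r) ℤ) (x w : Fin r → ℝ) (X : ℝ) (hX : 0 < X)
    (h : ∀ s : ℝ, (∀ k, |s * w k| ≤ X) →
      MvPolynomial.aeval (fun k => x k + s * w k) F = 0) :
    MvPolynomial.aeval (fun k => x k + w k) F = 0 := by
  let p : Polynomial ℝ := MvPolynomial.aeval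
    (fun k => Polynomial.C (x k) + Polynomial.X * Polynomial.C (w k)) F
  have hp : ∀ s : ℝ, p.eval s = MvPolynomial.aeval (fun k => x k + s * w k) F := by
    intro s
    have h1 : (Polynomial.evalRingHom s) (MvPolynomial.eval₂ (algebraMap ℤ (Polynomial ℝ))
        (fun k => Polynomial.C (x k) + Polynomial.X * Polynomial.C (w k)) F) =
        MvPolynomial.eval₂ ((Polynomial.evalRingHom s).comp (algebraMap ℤ (Polynomial ℝ)))
          (fun k => (Polynomial.evalRingHom s)
            (Polynomial.C (x k) + Polynomial.X * Polynomial.C (w k))) F :=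
      MvPolynomial.eval₂_comp_left _ _ _ _
    have h2 : (Polynomial.evalRingHom s).comp (algebraMap ℤ (Polynomial ℝ)) = algebraMap ℤ ℝ :=
      RingHom.ext_int _ _
    rw [h2] at h1
    have h3 : (fun k => (Polynomial.evalRingHom s)
        (Polynomial.C (x k) + Polynomial.X * Polynomial.C (w k))) = fun k => x k + s * w k := by
      funext k
      simp
      ring
    rw [h3] at h1
    exact h1
  have hp0 : p = 0 := by
    apply Polynomial.eq_zero_of_infinite_isRoot
    set M : ℝ := 1 + ∑ k, |w k| with hM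
    have hM0 : 0 < M := by
      have : 0 ≤ ∑ k, |w k| := Finset.sum_nonneg fun _ _ => abs_nonneg _
      linarith
    have hwM : ∀ k, |w k| ≤ M := by
      intro k
      have h1 : |w k| ≤ ∑ k, |w k| :=
        Finset.single_le_sum (f := fun k => |w k|) (fun _ _ => abs_nonneg _) (Finset.mem_univ k)
      linarith
    have hinf : (Set.Icc (0:ℝ) (X / M)).Infinite := Set.Icc_infinite (by positivity)
    refine hinf.mono ?_
    rintro s ⟨hs0, hs1⟩
    change p.eval s = 0
    rw [hp]
    apply h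
    intro k
    rw [abs_mul, abs_of_nonneg hs0]
    calc s * |w k| ≤ (X / M) * M := mul_le_mul hs1 (hwM k) (abs_nonneg _) (by positivity)
      _ = X := by field_simp
  have h1 := hp 1
  rw [hp0] at h1
  simp only [Polynomial.eval_zero, one_mul] at h1
  exact h1.symm

/-- The transfer principle in one box, for polynomials: exact and approximate form. -/
theorem box_poly (r d : ℕ) (A B δ : ℝ) (hδ : 0 < δ) :
    ∃ (N : ℕ) (C X₀ : ℝ), ∀ X : ℝ, X₀ ≤ X → ∀ P : Fin r → ℝ,
      ∃ t t' : Fin (N + 1) × Fin r → ℚ,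
      (∀ s, 0 < t s ∧ ((t s).num : ℝ) ≤ X ∧ ((t s).den : ℝ) ≤ X) ∧
      (∀ s, 0 < t' s ∧ ((t' s).num : ℝ) ≤ X ∧ ((t' s).den : ℝ) ≤ X) ∧
      ∀ (g : Fin r → ℚ), (∀ k, 0 < g k) → (∀ k, ((g k).num : ℝ) ≤ X) →
        (∀ k, ((g k).den : ℝ) ≤ X) → (∀ k, |Real.log (g k) - P k| ≤ X ^ (-δ)) →
        ∀ F : MvPolynomial (Fin r) ℤ, F.totalDegree ≤ d →
          (∀ α, |((MvPolynomial.coeff α F : ℤ) : ℝ)| ≤ X ^ A) → ∀ w : Fin r → ℝ,
          (MvPolynomial.aeval (fun k => Real.log (g k)) F = 0 →
            (∀ n : Fin r → ℤ, ∑ k, (n k : ℝ) * Real.log (g k) ∈ logSpan t →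
              ∑ k, (n k : ℝ) * w k = 0) →
            MvPolynomial.aeval (fun k => Real.log (g k) + w k) F = 0) ∧
          (|MvPolynomial.aeval (fun k => Real.log (g k)) F| ≤ X ^ (-C) → (∀ k, |w k| ≤ X) →
            (∀ n : Fin r → ℤ, ∑ k, (n k : ℝ) * Real.log (g k) ∈ logSpan t' →
              ∑ k, (n k : ℝ) * w k = 0) →
            |MvPolynomial.aeval (fun k => Real.log (g k) + w k) F| ≤ X ^ (-B)) := by
  obtain ⟨C₀, X₁, hcore⟩ := core r d (Fintype.card (Deg r d) + 1) (Nat.le_add_left _ _)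
    (Nat.le_succ _) δ A hδ
  refine ⟨Fintype.card (Deg r d) + 1, C₀ + B, max X₁ 2, fun X hX P => ?_⟩
  have hXX₁ : X₁ ≤ X := (le_max_left _ _).trans hX
  have hX2 : 2 ≤ X := (le_max_right _ _).trans hX
  have hX1 : 1 ≤ X := by linarith
  have hXpos : 0 < X := by linarith
  obtain ⟨t, ht, hc⟩ := hcore X hXX₁ 0 le_rfl P
  obtain ⟨t', ht', hc'⟩ := hcore X hXX₁ (X ^ (-(C₀ + B))) (Real.rpow_nonneg hXpos.le _) P
  refine ⟨t, t', ht, ht', ?_⟩
  intro g hg hg1 hg2 hbox F hF hFA w
  constructor
  · intro h0 hw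
    apply exact_ext F (fun k => Real.log (g k)) w X hXpos
    intro s hs
    let q : Mem r d X A δ 0 P :=
      ⟨g, coef d F, hg, hg1, hg2, hbox, coef_deg d F hF, fun γ => hFA _, by
        rw [ev_coef d F hF, h0]; simp⟩
    have h1 := hc q (fun k => s * w k) hs (fun n hn => by
      have h2 := hw n hn
      have h3 : ∑ k, (n k : ℝ) * (s * w k) = s * ∑ k, (n k : ℝ) * w k := by
        rw [Finset.mul_sum]
        apply Finset.sum_congr rfl
        intro k _
        ring
      rw [h3, h2, mul_zero])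
    rw [mul_zero] at h1
    have h4 : |ev (coef d F) (fun k => Real.log (g k) + s * w k)| ≤ 0 := h1
    rw [ev_coef d F hF] at h4
    exact abs_nonpos_iff.mp h4
  · intro h0 hwX hw
    let q : Mem r d X A δ (X ^ (-(C₀ + B))) P :=
      ⟨g, coef d F, hg, hg1, hg2, hbox, coef_deg d F hF, fun γ => hFA _, by
        rw [ev_coef d F hF]; exact h0⟩
    have h1 := hc' q w hwX hw
    have h4 : |ev (coef d F) (fun k => Real.log (g k) + w k)| ≤
        X ^ C₀ * X ^ (-(C₀ + B)) := h1
    rw [ev_coef d F hF, ← Real.rpow_add hXpos] at h4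
    refine h4.trans (le_of_eq ?_)
    congr 1
    ring

end Pool.Agent.H21F
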