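import Mathlib
import Pool.Agent.H21F.Gen
import Pool.Agent.H21F.Poly

set_option autoImplicit false

/-!
# Few groups, all degrees
-/

namespace Pool.Agent.H21F

open Filter Pool.Agent.FewGroups Pool.Agent.OneClass

/-- The three properties of a tuple `g` and a subspace `V`: exact relations of degree at most `d`,
approximate relations of degree at most `d`, and `2 × 2` matrices. -/
def Prp (r d : ℕ) (A B C : ℝ) (X : ℝ) (g : Fin r → ℚ) (V : Submodule ℚ ℝ) : Prop :=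
  (∀ F : MvPolynomial (Fin r) ℤ, F.totalDegree ≤ d →
    (∀ α, |((MvPolynomial.coeff α F : ℤ) : ℝ)| ≤ X ^ A) → ∀ w : Fin r → ℝ,
    (∀ n : Fin r → ℤ, ∑ k, (n k : ℝ) * Real.log (g k) ∈ V → ∑ k, (n k : ℝ) * w k = 0) →
    (MvPolynomial.aeval (fun k => Real.log (g k)) F = 0 →
      MvPolynomial.aeval (fun k => Real.log (g k) + w k) F = 0) ∧
    (|MvPolynomial.aeval (fun k => Real.log (g k)) F| ≤ X ^ (-C) → (∀ k, |w k| ≤ X) →
      |MvPolynomial.aeval (fun k => Real.log (g k) + w k) F| ≤ X ^ (-B))) ∧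
  ∀ (m : Fin 2 → Fin 2 → Fin r → ℤ) (M : Matrix (Fin 2) (Fin 2) ℝ),
    (∀ i j k, |(m i j k : ℝ)| ≤ X ^ A) →
    (∀ i j, M i j = ∑ k, (m i j k : ℝ) * Real.log (g k)) →
    RowsIndep M → RowsIndep M.transpose →
    (∀ i j, M i j ∈ V) ∨ X ^ (-C) ≤ |M.det| ∨
    (M.det ≠ 0 ∧ ∃ w : Fin 2 → ℤ, w ≠ 0 ∧ (∀ i, |(w i : ℝ)| ≤ X ^ C) ∧
      ((∀ i, |∑ j, M i j * (w j : ℝ)| ≤ X ^ (-B) ∧ ∑ j, M i j * (w j : ℝ) ∈ V) ∨
       (∀ j, |∑ i, (w i : ℝ) * M i j| ≤ X ^ (-B) ∧ ∑ i, (w i : ℝ) * M i j ∈ V)))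

/-- One box. -/
theorem box_all (r d : ℕ) (A B δ : ℝ) (hδ : 0 < δ) :
    ∃ (R : ℕ) (C X₀ : ℝ), ∀ X : ℝ, X₀ ≤ X → ∀ P : Fin r → ℝ, ∃ t : Fin R → ℚ,
      (∀ s, 0 < t s ∧ ((t s).num : ℝ) ≤ X ∧ ((t s).den : ℝ) ≤ X) ∧
      ∀ (g : Fin r → ℚ), (∀ k, 0 < g k) → (∀ k, ((g k).num : ℝ) ≤ X) →
        (∀ k, ((g k).den : ℝ) ≤ X) → (∀ k, |Real.log (g k) - P k| ≤ X ^ (-δ)) →
        Prp r d A B C X g (logSpan t) := by
  obtain ⟨N, C₁, X₁, h1⟩ := box_poly r d A B δ hδ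
  obtain ⟨C₂, X₂, h2⟩ := box r A B δ hδ
  let ι : Type := Fin (3 * (((r + 1) ^ 2 + 1) * r)) ⊕ (Fin (N + 1) × Fin r) ⊕
    (Fin (N + 1) × Fin r)
  refine ⟨Fintype.card ι, max C₁ C₂, max (max X₁ X₂) 1, fun X hX P => ?_⟩
  have hXX₁ : X₁ ≤ X := ((le_max_left _ _).trans (le_max_left _ _)).trans hX
  have hXX₂ : X₂ ≤ X := ((le_max_right _ _).trans (le_max_left _ _)).trans hX
  have hX1 : 1 ≤ X := (le_max_right _ _).trans hX
  have hXpos : 0 < X := by linarith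
  obtain ⟨t₁, t₁', ht₁, ht₁', hp⟩ := h1 X hXX₁ P
  obtain ⟨t₂, ht₂, hm⟩ := h2 X hXX₂ P
  let tt : ι → ℚ := Sum.elim t₂ (Sum.elim t₁ t₁')
  let E : ι ≃ Fin (Fintype.card ι) := Fintype.equivFin ι
  let t : Fin (Fintype.card ι) → ℚ := fun s => tt (E.symm s)
  have htt : ∀ s, 0 < tt s ∧ ((tt s).num : ℝ) ≤ X ∧ ((tt s).den : ℝ) ≤ X := by
    rintro (s | s | s)
    · exact ht₂ s
    · exact ht₁ s
    · exact ht₁' s
  have hs1 : logSpan t₁ ≤ logSpan t := by
    rw [logSpan, Submodule.span_le]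
    rintro x ⟨q, rfl⟩
    have h1 := log_mem_logSpan t (E (Sum.inr (Sum.inl q)))
    simp only [t, Equiv.symm_apply_apply] at h1
    exact h1
  have hs1' : logSpan t₁' ≤ logSpan t := by
    rw [logSpan, Submodule.span_le]
    rintro x ⟨q, rfl⟩
    have h1 := log_mem_logSpan t (E (Sum.inr (Sum.inr q)))
    simp only [t, Equiv.symm_apply_apply] at h1
    exact h1
  have hs2 : logSpan t₂ ≤ logSpan t := by
    rw [logSpan, Submodule.span_le]
    rintro x ⟨q, rfl⟩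
    have h1 := log_mem_logSpan t (E (Sum.inl q))
    simp only [t, Equiv.symm_apply_apply] at h1
    exact h1
  refine ⟨t, fun s => htt _, ?_⟩
  intro g hg hg1 hg2 hbox
  have hC1 : X ^ (-(max C₁ C₂)) ≤ X ^ (-C₁) :=
    Real.rpow_le_rpow_of_exponent_le hX1 (neg_le_neg (le_max_left _ _))
  have hC2 : X ^ (-(max C₁ C₂)) ≤ X ^ (-C₂) :=
    Real.rpow_le_rpow_of_exponent_le hX1 (neg_le_neg (le_max_right _ _))
  have hC2' : X ^ C₂ ≤ X ^ (max C₁ C₂) :=
    Real.rpow_le_rpow_of_exponent_le hX1 (le_max_right _ _)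
  constructor
  · intro F hF hFA w hw
    obtain ⟨ha, hb⟩ := hp g hg hg1 hg2 hbox F hF hFA w
    refine ⟨fun h0 => ha h0 fun n hn => hw n (hs1 hn), fun h0 hwX => ?_⟩
    exact hb (h0.trans hC1) hwX fun n hn => hw n (hs1' hn)
  · intro m M hm' hM hrow hcol
    rcases hm g hg hg1 hg2 hbox m M hm' hM hrow hcol with h | h | ⟨hd, w, hw0, hw1, h⟩
    · exact Or.inl fun i j => hs2 (h i j)
    · exact Or.inr (Or.inl (hC2.trans h))
    · refine Or.inr (Or.inr ⟨hd, w, hw0, fun i => (hw1 i).trans hC2', ?_⟩)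
      rcases h with h | h
      · exact Or.inl fun i => ⟨(h i).1, hs2 (h i).2⟩
      · exact Or.inr fun i => ⟨(h i).1, hs2 (h i).2⟩

theorem final (r d : ℕ) (A B ε : ℝ) (hε : 0 < ε) :
    ∃ C X₀ : ℝ, ∀ X : ℝ, X₀ ≤ X →
      ∃ (S : Finset ℕ) (T : Finset (Fin r → ℚ)),
        (S.card : ℝ) ≤ X ^ ε ∧ (T.card : ℝ) ≤ X ^ ε ∧
        (∀ u ∈ T, ∀ s, 0 < u s ∧ ∀ p : ℕ, p.Prime → padicValRat p (u s) ≠ 0 → p ∈ S) ∧
        ∀ g : Fin r → ℚ, (∀ k, 0 < g k) → (∀ k, ((g k).num : ℝ) ≤ X) →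
          (∀ k, ((g k).den : ℝ) ≤ X) →
          ∃ u ∈ T, Submodule.span ℚ (Set.range fun s => Real.log (u s)) ≤
              Submodule.span ℚ (Set.range fun k => Real.log (g k)) ∧
            (∀ F : MvPolynomial (Fin r) ℤ, F.totalDegree ≤ d →
              (∀ α, |((MvPolynomial.coeff α F : ℤ) : ℝ)| ≤ X ^ A) → ∀ w : Fin r → ℝ,
              (∀ n : Fin r → ℤ, ∑ k, (n k : ℝ) * Real.log (g k) ∈
                  Submodule.span ℚ (Set.range fun s => Real.log (u s)) →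
                ∑ k, (n k : ℝ) * w k = 0) →
              (MvPolynomial.aeval (fun k => Real.log (g k)) F = 0 →
                MvPolynomial.aeval (fun k => Real.log (g k) + w k) F = 0) ∧
              (|MvPolynomial.aeval (fun k => Real.log (g k)) F| ≤ X ^ (-C) →
                (∀ k, |w k| ≤ X) →
                |MvPolynomial.aeval (fun k => Real.log (g k) + w k) F| ≤ X ^ (-B))) ∧
            ∀ (m : Fin 2 → Fin 2 → Fin r → ℤ) (a : Fin 2 → Fin 2 → ℚ)
              (M : Matrix (Fin 2) (Fin 2) ℝ),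
            (∀ i j k, |(m i j k : ℝ)| ≤ X ^ A) →
            (∀ i j, a i j = ∏ k, g k ^ m i j k) →
            (∀ i j, M i j = Real.log (a i j)) →
            LinearIndependent ℚ (fun i : Fin 2 => fun j : Fin 2 => M i j) →
            LinearIndependent ℚ (fun j : Fin 2 => fun i : Fin 2 => M i j) →
            (∀ i j, M i j ∈ Submodule.span ℚ (Set.range fun s => Real.log (u s)) ∧
              ∀ p : ℕ, p.Prime → padicValRat p (a i j) ≠ 0 → p ∈ S) ∨
            X ^ (-C) ≤ |M.det| ∨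
            (M.det ≠ 0 ∧ ∃ w : Fin 2 → ℤ, w ≠ 0 ∧ (∀ i, |(w i : ℝ)| ≤ X ^ C) ∧
              ((∀ i, |∑ j, M i j * (w j : ℝ)| ≤ X ^ (-B) ∧ ∑ j, M i j * (w j : ℝ) ∈
                  Submodule.span ℚ (Set.range fun s => Real.log (u s))) ∨
               (∀ j, |∑ i, (w i : ℝ) * M i j| ≤ X ^ (-B) ∧ ∑ i, (w i : ℝ) * M i j ∈
                  Submodule.span ℚ (Set.range fun s => Real.log (u s))))) := by
  have hr0 : (0:ℝ) ≤ r := Nat.cast_nonneg r
  obtain ⟨R, C, X₁, hbox⟩ := box_all r d A B (ε / 4 / (8 * (r + 1))) (by positivity)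
  obtain ⟨X₀, hgen⟩ := gen r R ε hε (ε / 4 / (8 * (r + 1))) rfl
    (fun X g V => Prp r d A B C X g V) X₁ hbox
  refine ⟨C, X₀, fun X hX => ?_⟩
  obtain ⟨S, T, hS, hT, hTS, hmain⟩ := hgen X hX
  refine ⟨S, T, hS, hT, hTS, fun g hg hg1 hg2 => ?_⟩
  obtain ⟨t, ⟨hP, hQ⟩, hpr, u, hu, hsub, hn3⟩ := hmain g hg hg1 hg2
  refine ⟨u, hu, hsub, ?_, ?_⟩
  · intro F hF hFA w hw
    exact hP F hF hFA w fun n hn => hw n (hn3 n hn)
  · intro m a M hm ha hM hrow hcol
    have hM' : ∀ i j, M i j = ∑ k, (m i j k : ℝ) * Real.log (g k) := by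
      intro i j
      rw [hM, ha, log_comb g hg]
    rcases hQ m M hm hM' (rowsIndep_of M hrow) (rowsIndep_of M.transpose hcol) with
      h | h | ⟨h1, w, hw0, hw1, h⟩
    · left
      intro i j
      have hapos : 0 < a i j := by
        rw [ha]
        exact Finset.prod_pos (fun k _ => zpow_pos (hg k) _)
      have h1 := h i j
      refine ⟨?_, fun p hp hval => hpr (a i j) hapos (by rw [← hM]; exact h1) p hp hval⟩
      rw [hM'] at h1 ⊢
      exact hn3 (m i j) h1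
    · exact Or.inr (Or.inl h)
    · right
      right
      refine ⟨h1, w, hw0, hw1, ?_⟩
      rcases h with h | h
      · left
        intro i
        refine ⟨(h i).1, ?_⟩
        have h3 : ∑ j, M i j * (w j : ℝ) =
            ∑ k, ((m i 0 k * w 0 + m i 1 k * w 1 : ℤ) : ℝ) * Real.log (g k) := by
          rw [Fin.sum_univ_two, hM', hM', Finset.sum_mul, Finset.sum_mul,
            ← Finset.sum_add_distrib]
          apply Finset.sum_congr rfl
          intro k _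
          push_cast
          ring
        have h4 := (h i).2
        rw [h3] at h4 ⊢
        exact hn3 _ h4
      · right
        intro j
        refine ⟨(h j).1, ?_⟩
        have h3 : ∑ i, (w i : ℝ) * M i j =
            ∑ k, ((m 0 j k * w 0 + m 1 j k * w 1 : ℤ) : ℝ) * Real.log (g k) := by
          rw [Fin.sum_univ_two, hM', hM', Finset.mul_sum, Finset.mul_sum,
            ← Finset.sum_add_distrib]
          apply Finset.sum_congr rfl
          intro k _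
          push_cast
          ring
        have h4 := (h j).2
        rw [h3] at h4 ⊢
        exact hn3 _ h4

end Pool.Agent.H21F
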